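import Pool.Agent.MAx.Fin

/-!
# It is consistent that `C(ℕ*)` is `ℵ₂`-injective

There is a model of ZFC which satisfies: `C(ℕ*)` is `(3, ℵ₂)`-injective.

* `ZFC E` (file `Pool/Agent/BVM/Fml.lean`): `(M, E)` is a model of ZFC.
* `Omega`, `SuccCard` (file `Pool/Agent/BVM/Notions.lean`): `ω` and the successor cardinal.
* `TripleInjective` (file `Pool/Agent/MAx/Defs.lean`): the injectivity of `C(ℕ*)`, relativized to
  `(M, E)`.

The model is a quotient of the Boolean-valued model of a finite support iteration of ccc posets of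
size `≤ ℵ₁`, of length `(2 ^ ℵ₁)⁺`.
-/

namespace Pool.Agent.Results.MP_b72cba_an.ConsistentInjective

open Pool.Agent.BVM Pool.Agent.MAx

/-- **Main theorem.**  There is a model `(M, E)` of ZFC which satisfies: `C(ℕ*)` is
`(3, ℵ₂)`-injective, that is, for every Banach space `V` of density character `≤ ℵ₁`, every closed
subspace `Y` and every bounded linear operator `t : Y → C(ℕ*)` there is a linear extension
`T : V → C(ℕ*)` with `‖T‖ ≤ 3 ‖t‖`. -/
theorem result : ∃ (M : Type 1) (E : M → M → Prop), ZFC E ∧
    ∃ w w1 : M, Omega E w ∧ SuccCard E w1 w ∧ TripleInjective E w w1 :=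
  exists_model

end Pool.Agent.Results.MP_b72cba_an.ConsistentInjective
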