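import Pool.Agent.H90.InjMA

/-!
# `C(ℕ*)` is `(3, 𝔪)`-injective

`𝔪` is the least cardinal `κ` for which Martin's axiom `MA κ` (for `κ` dense sets in ccc posets)
fails.  In particular `MA ℵ₁` implies that `C(ℕ*)` is `ℵ₂`-injective (with constant `3`).
-/

namespace Pool.Agent.Results.MP_b72cba_an.MartinInjective

open Cardinal Pool.Agent.H90

universe v

/-- the density character of `X` is less than the cardinal `κ` -/
def DensityLT (X : Type v) [TopologicalSpace X] (κ : Cardinal.{0}) : Prop :=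
  ∃ S : Set X, Dense S ∧ #S < Cardinal.lift.{v, 0} κ

/-- `E` is `(lam, κ)`-injective: every bounded linear operator `t : Y → E` from a closed subspace
`Y` of a Banach space `X` of density character less than `κ` extends to a bounded linear operator
`T : X → E` with `‖T‖ ≤ lam * ‖t‖` -/
def InjectiveWith (E : Type) [NormedAddCommGroup E] [NormedSpace ℝ E] (lam : ℝ)
    (κ : Cardinal.{0}) : Prop :=
  ∀ (X : Type v) [NormedAddCommGroup X] [NormedSpace ℝ X] [CompleteSpace X], DensityLT X κ →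
    ∀ Y : Submodule ℝ X, IsClosed (Y : Set X) → ∀ t : Y →L[ℝ] E,
      ∃ T : X →L[ℝ] E, (∀ y : Y, T y = t y) ∧ ‖T‖ ≤ lam * ‖t‖

/-- `E` is `κ`-injective: it is `(lam, κ)`-injective for some `lam ≥ 1` -/
def AlephInjective (E : Type) [NormedAddCommGroup E] [NormedSpace ℝ E] (κ : Cardinal.{0}) : Prop :=
  ∃ lam : ℝ, 1 ≤ lam ∧ InjectiveWith.{v} E lam κ

/-- `C(ℕ*)` -/
abbrev CNStar : Type := C(NStar, ℝ)

theorem injective_of_lt (κ : Cardinal.{0})
    (hκ : ∀ μ : Cardinal.{0}, μ < κ → MA μ) (hκ0 : ℵ₀ < κ) : InjectiveWith.{v} CNStar 3 κ := by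
  intro X _ _ _ hX Y _ t
  obtain ⟨S, hS, hSκ⟩ := hX
  obtain ⟨c, hc⟩ := mem_range_lift_of_le hSκ.le
  have hcκ : c < κ := by
    rw [← hc] at hSκ
    exact lift_lt.1 hSκ
  -- a `Type 0` index set
  have e : Nonempty (Quotient.out c ≃ S) := by
    apply lift_mk_eq'.1
    rw [mk_out, hc, lift_uzero]
  obtain ⟨e⟩ := e
  refine extend_operator (κ := max c ℵ₀) (hκ _ (max_lt hcκ hκ0)) (le_max_right _ _)
    (fun i : Quotient.out c => (e i : X)) ?_ ((mk_out c).le.trans (le_max_left _ _)) Y t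
  refine Dense.mono ?_ hS
  intro x hx
  exact ⟨e.symm ⟨x, hx⟩, by simp⟩

/-- **Main theorem.**
1. `ℵ₀ < 𝔪 ≤ 𝔠`;
2. `C(ℕ*)` is `(3, 𝔪)`-injective (a theorem of ZFC);
3. in particular, if `MA ℵ₁` holds, then `C(ℕ*)` is `ℵ₂`-injective, with constant `3`. -/
theorem result :
    (ℵ₀ < frakM ∧ frakM ≤ 𝔠) ∧
    InjectiveWith.{v} CNStar 3 frakM ∧
    (MA (ℵ_ 1) → InjectiveWith.{v} CNStar 3 (ℵ_ 2) ∧ AlephInjective.{v} CNStar (ℵ_ 2)) := by
  refine ⟨⟨aleph0_lt_frakM, frakM_le_continuum⟩,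
    injective_of_lt _ (fun μ hμ => MA_of_lt_frakM hμ) aleph0_lt_frakM, ?_⟩
  intro hMA
  have h2 : (ℵ_ 2 : Cardinal.{0}) = Order.succ (ℵ_ 1) := by
    rw [succ_aleph]
    congr 1
    exact one_add_one_eq_two.symm
  have h : InjectiveWith.{v} CNStar 3 (ℵ_ 2) := by
    refine injective_of_lt _ (fun μ hμ => hMA.mono ?_) ?_
    · rw [h2] at hμ
      exact Order.lt_succ_iff.1 hμ
    · exact aleph0_lt_aleph_one.trans (aleph_lt_aleph.2 (by norm_num))
  exact ⟨h, 3, by norm_num, h⟩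

end Pool.Agent.Results.MP_b72cba_an.MartinInjective
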